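import Pool.Agent.Helper49K9.PS2.Pay

/-!
Clique factors in dense subgraphs of powers of cycles: helper40's certificate with the cost
`3 ^ (last Y)` (the body is the one of helper74).
-/

set_option autoImplicit false

namespace Pool.Agent.Helper49K9.PS2

open Finset Pool.Agent.Helper83K9.CF Pool.Agent.Helper74K9.PS
open Pool.Agent.Helper74K9.PS.CertL (mem_LQ last_mem le_last last_le nq conf conf_eq wind unit
  unit_ge unit_pos)

open Classical in
/-- the trace of a tight clique on `{f > 0}` is tight -/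
theorem trace {t k N : ℕ} {q : ℕ → ℕ → Prop} {f : ℕ → ℝ} (hf : Feas q k N t f) {Y : Finset ℕ}
    (h1 : Cq q k N Y) (h2 : Y.card ≤ t) (h3 : ∑ x ∈ Y, f x = 3 ^ (Y.sup id)) :
    Tgt q k N t f (Y.filter (fun v => 0 < f v)) := by
  have e1 : ∑ x ∈ Y.filter (fun v => 0 < f v), f x = ∑ x ∈ Y, f x := by
    rw [Finset.sum_filter]
    refine Finset.sum_congr rfl fun v _ => ?_
    split_ifs with h
    · rfl
    · exact le_antisymm (hf.nonneg v) (not_lt.1 h)
  have hne : (Y.filter (fun v => 0 < f v)).Nonempty := by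
    by_contra h
    rw [Finset.not_nonempty_iff_eq_empty] at h
    rw [h, sum_empty, h3] at e1
    have : (0 : ℝ) < 3 ^ (Y.sup id) := by positivity
    linarith
  have hsub : Y.filter (fun v => 0 < f v) ⊆ Y := Finset.filter_subset _ _
  have hcq : Cq q k N (Y.filter (fun v => 0 < f v)) :=
    ⟨hne, hsub.trans h1.2.1, fun x hx y hy => h1.2.2 x (hsub hx) y (hsub hy)⟩
  have hcard : (Y.filter (fun v => 0 < f v)).card ≤ t := (card_le_card hsub).trans h2
  refine ⟨hcq, hcard, fun v hv => (mem_filter.1 hv).2, ?_⟩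
  have h4 := hf.le _ hcq hcard
  rw [e1, h3] at h4 ⊢
  have h5 : Y.sup id ≤ (Y.filter (fun v => 0 < f v)).sup id :=
    (pow_le_pow_iff_right₀ (by norm_num : (1 : ℝ) < 3)).1 h4
  have h6 : (Y.filter (fun v => 0 < f v)).sup id ≤ Y.sup id := Finset.sup_mono hsub
  rw [le_antisymm h5 h6]

open Classical in
/-- the certificate -/
theorem cert (t k N : ℕ) (q : ℕ → ℕ → Prop) (μ f lam : ℕ → ℝ) (w : Finset ℕ → ℝ) (ht : 2 ≤ t)
    (hk : 1 ≤ k) (hq1 : ∀ x, q x x) (hq2 : ∀ x y, q x y → q y x) (hμ : ∀ x, 0 ≤ μ x)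
    (hw : ∀ z x, k ≤ z → z < N → x < N → z ≤ x + k → x ≤ z + k →
      ((t : ℝ) - 1) * ∑ y ∈ LQ q k N x, μ y ≤ ∑ y ∈ Ico (z - k) z, μ y)
    (hf : Feas q k N t f) (hw0 : ∀ Y, 0 ≤ w Y)
    (hwt : ∀ Y, w Y ≠ 0 → Cq q k N Y ∧ Y.card ≤ t ∧ ∑ x ∈ Y, f x = 3 ^ (Y.sup id))
    (hlam0 : ∀ v, 0 ≤ lam v)
    (heq : ∀ v, v < N → 0 < f v → load N w v + lam v = μ v) :
    ∑ Y ∈ (range N).powerset, w Y * ((t : ℝ) - (Y.filter (fun v => 0 < f v)).card) ≤
      ∑ v ∈ (range N).filter (fun v => f v = 0), μ v := by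
  have htr : (2 : ℝ) ≤ t := by exact_mod_cast ht
  obtain ⟨c, hc⟩ : ∃ c : ℝ, c = (t : ℝ) - 1 := ⟨_, rfl⟩
  have hc0 : 0 < c := by linarith
  rw [← hc] at hw
  -- cores
  obtain ⟨C, hC⟩ : ∃ C, C = (range N).powerset.filter (fun Y => Tgt q k N t f Y ∧ Y.card < t) :=
    ⟨_, rfl⟩
  have hCm : ∀ Y, Y ∈ C ↔ Tgt q k N t f Y ∧ Y.card < t := by
    intro Y
    rw [hC, mem_filter, mem_powerset]
    exact ⟨fun h => h.2, fun h => ⟨h.1.cq.2.1, h⟩⟩
  have hCT : ∀ Y ∈ C, Tgt q k N t f Y := fun Y hY => ((hCm Y).1 hY).1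
  -- hits
  obtain ⟨nn, hnn⟩ : ∃ nn : ℕ → Finset ℕ → ℕ, ∀ e Y, nn e Y =
      (Y.filter (fun v => v ∈ LQ q k N e)).card := ⟨fun e Y => _, fun e Y => rfl⟩
  obtain ⟨h, hh⟩ : ∃ h, h = unit t C (fun e Y => 1 ≤ nn e Y) := ⟨_, rfl⟩
  have hge : ∀ Y ∈ C, t ≤ Y.card + ∑ e ∈ range (Y.sup id), (if 1 ≤ nn e Y then h e else 0) +
      h (Y.sup id) := by
    intro Y hY
    rw [hh]
    convert unit_ge (t := t) (hit := fun e Y => 1 ≤ nn e Y) hY
  have hpos : ∀ x, 0 < h x → ∃ X ∈ C, X.sup id = x ∧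
      h x + X.card + ∑ e ∈ range x, (if 1 ≤ nn e X then h e else 0) = t := by
    intro x hx
    rw [hh] at hx ⊢
    convert unit_pos hx
  choose! X hX1 hX2 hX3 using hpos
  obtain ⟨U, hU⟩ : ∃ U, U = (range N).filter (fun e => 0 < h e) := ⟨_, rfl⟩
  have hlN : ∀ Y ∈ C, Y.sup id < N := fun Y hY => mem_range.1 ((hCT Y hY).cq.2.1
    (last_mem (hCT Y hY).cq))
  have hUm : ∀ e, e ∈ U ↔ 0 < h e := by
    intro e
    rw [hU, mem_filter, mem_range]
    refine ⟨fun h1 => h1.2, fun h1 => ⟨?_, h1⟩⟩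
    have h2 := hlN _ (hX1 e h1)
    rwa [hX2 e h1] at h2
  have hUN : ∀ e ∈ U, e < N := by
    intro e he
    rw [hU, mem_filter, mem_range] at he
    exact he.1
  have hUf : ∀ e ∈ U, 0 < f e := by
    intro e he
    have h1 := (hUm e).1 he
    have h2 := (hCT _ (hX1 e h1)).pos _ (last_mem (hCT _ (hX1 e h1)).cq)
    rwa [hX2 e h1] at h2
  obtain ⟨Z, hZ1, hZ2, hZ3⟩ := wind k U
  choose! ζ hζ1 hζ2 hζ3 using hZ3
  have hZk : ∀ z ∈ Z, k ≤ z := by
    intro z hz
    have h1 := (hUm z).1 (hZ1 hz)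
    have h2 := klast hf (hCT _ (hX1 z h1)) ((hCm _).1 (hX1 z h1)).2
    rwa [hX2 z h1] at h2
  -- functions
  obtain ⟨I, hI⟩ : ∃ I : ℕ → ℕ → ℝ, ∀ e v, I e v = if v ∈ LQ q k N e then 1 else 0 :=
    ⟨fun e v => _, fun e v => rfl⟩
  have hI0 : ∀ e v, 0 ≤ I e v := by
    intro e v
    rw [hI]
    split_ifs <;> norm_num
  obtain ⟨L, hL⟩ : ∃ L : ℕ → ℕ → ℝ, ∀ z v, L z v = if z - k ≤ v ∧ v < z then 1 else 0 :=
    ⟨fun e v => _, fun e v => rfl⟩
  have hL0 : ∀ z v, 0 ≤ L z v := by
    intro e v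
    rw [hL]
    split_ifs <;> norm_num
  obtain ⟨P, hP⟩ : ∃ P : ℕ → ℕ → ℝ, ∀ z v, P z v = ((h z : ℝ) - 1) * I z v +
      ∑ x ∈ X z, I x v - L z v := ⟨fun z v => _, fun e v => rfl⟩
  obtain ⟨F, hF⟩ : ∃ F : ℕ → ℝ, ∀ v, F v = ∑ e ∈ U \ Z, (h e : ℝ) * I e v + ∑ z ∈ Z, P z v :=
    ⟨fun v => _, fun v => rfl⟩
  have hhz : ∀ z ∈ Z, (0 : ℝ) ≤ (h z : ℝ) - 1 := by
    intro z hz
    have h1 := (hUm z).1 (hZ1 hz)
    have h2 : (1 : ℝ) ≤ h z := by exact_mod_cast h1
    linarith
  have hP0 : ∀ z ∈ Z, ∀ v, v < N → 0 < f v → 0 ≤ P z v := by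
    intro z hz v hv hfv
    rw [hP]
    have h1 := mul_nonneg (hhz z hz) (hI0 z v)
    have h2 : L z v ≤ ∑ x ∈ X z, I x v := by
      rw [hL]
      split_ifs with h3
      · have h4 := (hUm z).1 (hZ1 hz)
        have h5 := hX1 z h4
        have h6 := hX2 z h4
        obtain ⟨x, hx, hvx⟩ := hitw hq1 hq2 hf (hCT _ h5) ((hCm _).1 h5).2 hv hfv
          (by rw [h6]; omega) (by rw [h6]; omega)
        refine le_trans (le_of_eq ?_) (Finset.single_le_sum (fun x _ => hI0 x v) hx)
        rw [hI, if_pos hvx]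
      · exact Finset.sum_nonneg fun x _ => hI0 x v
    linarith
  have hPm : ∀ z ∈ Z, ∀ v, - L z v ≤ P z v := by
    intro z hz v
    rw [hP]
    have h1 := mul_nonneg (hhz z hz) (hI0 z v)
    have h2 : 0 ≤ ∑ x ∈ X z, I x v := Finset.sum_nonneg fun x _ => hI0 x v
    linarith
  -- (1)
  have c1 : ∀ v, v < N → 0 < f v → 0 ≤ F v := by
    intro v hv hfv
    rw [hF]
    exact add_nonneg (Finset.sum_nonneg fun e _ => mul_nonneg (Nat.cast_nonneg _) (hI0 e v))
      (Finset.sum_nonneg fun z hz => hP0 z hz v hv hfv)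
  -- (2)
  have c2 : ∀ v, -1 ≤ F v := by
    intro v
    rw [hF]
    have h1 : 0 ≤ ∑ e ∈ U \ Z, (h e : ℝ) * I e v :=
      Finset.sum_nonneg fun e _ => mul_nonneg (Nat.cast_nonneg _) (hI0 e v)
    have h2 : ∑ z ∈ Z, - L z v ≤ ∑ z ∈ Z, P z v := Finset.sum_le_sum fun z hz => hPm z hz v
    have h3 : ∑ z ∈ Z, L z v ≤ 1 := by
      simp only [hL]
      rw [Finset.sum_boole]
      have h4 : (Z.filter (fun z => z - k ≤ v ∧ v < z)).card ≤ 1 := by
        rw [card_le_one]
        intro a ha b hb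
        rw [mem_filter] at ha hb
        by_contra hab
        rcases lt_or_gt_of_ne hab with h5 | h5
        · have := hZ2 a ha.1 b hb.1 h5
          omega
        · have := hZ2 b hb.1 a ha.1 h5
          omega
      exact_mod_cast h4
    rw [Finset.sum_neg_distrib] at h2
    linarith
  -- (3)
  have hsI : ∀ e Y, ∑ v ∈ Y, I e v = (nn e Y : ℝ) := by
    intro e Y
    simp only [hI]
    rw [Finset.sum_boole, hnn]
  have c3 : ∀ Y ∈ C, (t : ℝ) - Y.card ≤ ∑ v ∈ Y, F v := by
    intro Y hY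
    have hYT := hCT Y hY
    obtain ⟨l, hl⟩ : ∃ l, l = Y.sup id := ⟨_, rfl⟩
    have hlY : l ∈ Y := by rw [hl]; exact last_mem hYT.cq
    have h1 := hge Y hY
    rw [← hl] at h1
    have h2 : ∑ e ∈ range l, (if 1 ≤ nn e Y then h e else 0) + h l =
        ∑ e ∈ U, if e ≤ l ∧ 1 ≤ nn e Y then h e else 0 := by
      have h3 : h l = if 1 ≤ nn l Y then h l else 0 := by
        rw [if_pos]
        rw [hnn]
        refine card_pos.2 ⟨l, mem_filter.2 ⟨hlY, mem_LQ.2 ⟨mem_range.1 (hYT.cq.2.1 hlY), by omega,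
          by omega, hq1 l⟩⟩⟩
      rw [h3, ← Finset.sum_range_succ (fun e => if 1 ≤ nn e Y then h e else 0)]
      have h4 : ∑ e ∈ U, (if e ≤ l ∧ 1 ≤ nn e Y then h e else 0) =
          ∑ e ∈ U.filter (fun e => e ≤ l), if 1 ≤ nn e Y then h e else 0 := by
        rw [Finset.sum_filter]
        refine Finset.sum_congr rfl fun e _ => ?_
        by_cases h5 : e ≤ l
        · simp [h5]
        · simp [h5]
      rw [h4]
      symm
      apply Finset.sum_subset
      · intro e he
        rw [mem_filter] at he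
        rw [mem_range]
        omega
      · intro e he he'
        rw [mem_range] at he
        rw [mem_filter, hUm] at he'
        have h6 : h e = 0 := by
          by_contra h7
          exact he' ⟨by omega, by omega⟩
        rw [h6]
        simp
    have h3 : (t : ℝ) - Y.card ≤ ∑ e ∈ U, if e ≤ l ∧ 1 ≤ nn e Y then (h e : ℝ) else 0 := by
      have h4 : t ≤ Y.card + ∑ e ∈ U, if e ≤ l ∧ 1 ≤ nn e Y then h e else 0 := by
        rw [← h2]
        omega
      have h5 : (t : ℝ) ≤ ((Y.card + ∑ e ∈ U, if e ≤ l ∧ 1 ≤ nn e Y then h e else 0 : ℕ) : ℝ) := by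
        exact_mod_cast h4
      push_cast at h5
      linarith
    refine h3.trans ?_
    have h6 : ∑ v ∈ Y, F v = ∑ e ∈ U \ Z, (h e : ℝ) * (nn e Y : ℝ) + ∑ z ∈ Z, ∑ v ∈ Y, P z v := by
      simp only [hF]
      rw [Finset.sum_add_distrib, Finset.sum_comm, Finset.sum_comm (s := Y) (t := Z)]
      congr 1
      refine Finset.sum_congr rfl fun e _ => ?_
      rw [← Finset.mul_sum, hsI]
    rw [h6, ← Finset.sum_sdiff hZ1]
    refine add_le_add (Finset.sum_le_sum fun e he => ?_) (Finset.sum_le_sum fun z hz => ?_)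
    · split_ifs with h7
      · have h8 : (1 : ℝ) ≤ nn e Y := by exact_mod_cast h7.2
        have h9 : (0 : ℝ) ≤ h e := Nat.cast_nonneg _
        nlinarith
      · positivity
    · have h4 := (hUm z).1 (hZ1 hz)
      have h5 := hX1 z h4
      have h8 := hX2 z h4
      split_ifs with h7
      · have h9 := pay hq1 hq2 hf (hCT _ h5) hYT ((hCm _).1 h5).2 (by rw [h8, ← hl]; exact h7.1) h4
          (by rw [h8, ← hnn]; exact h7.2)
        rw [h8] at h9
        refine h9.trans (le_of_eq ?_)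
        simp only [hP]
        rw [Finset.sum_sub_distrib, Finset.sum_add_distrib, ← Finset.mul_sum, hsI, hnn]
        have e1 : ∑ v ∈ Y, ∑ x ∈ X z, I x v = (conf q k N (X z) Y : ℝ) := by
          rw [Finset.sum_comm]
          unfold conf
          push_cast
          refine Finset.sum_congr rfl fun x _ => ?_
          rw [hsI, hnn]
        have e2 : ∑ v ∈ Y, L z v = ((Y.filter (fun v => z - k ≤ v ∧ v < z)).card : ℝ) := by
          simp only [hL]
          rw [Finset.sum_boole]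
        rw [e1, e2]
        ring
      · exact Finset.sum_nonneg fun v hv => hP0 z hz v (mem_range.1 (hYT.cq.2.1 hv)) (hYT.pos v hv)
  -- (4)
  have c4 : ∑ v ∈ range N, F v * μ v ≤ 0 := by
    obtain ⟨m, hm⟩ : ∃ m : ℕ → ℝ, ∀ e, m e = ∑ y ∈ LQ q k N e, μ y := ⟨fun e => _, fun e => rfl⟩
    obtain ⟨W, hW⟩ : ∃ W : ℕ → ℝ, ∀ z, W z = ∑ y ∈ Ico (z - k) z, μ y := ⟨fun e => _, fun e => rfl⟩
    have hW0 : ∀ z, 0 ≤ W z := fun z => by rw [hW]; exact Finset.sum_nonneg fun y _ => hμ y
    have e1 : ∀ e, ∑ v ∈ range N, I e v * μ v = m e := by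
      intro e
      rw [hm]
      have h1 : ∀ v, I e v * μ v = if v ∈ LQ q k N e then μ v else 0 := by
        intro v
        rw [hI]
        split_ifs <;> simp
      simp only [h1]
      rw [← Finset.sum_filter]
      refine Finset.sum_congr ?_ fun _ _ => rfl
      ext v
      rw [mem_filter, mem_range, mem_LQ]
      tauto
    have e2 : ∀ z ∈ Z, ∑ v ∈ range N, L z v * μ v = W z := by
      intro z hz
      have hzN := hUN z (hZ1 hz)
      rw [hW]
      have h1 : ∀ v, L z v * μ v = if z - k ≤ v ∧ v < z then μ v else 0 := by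
        intro v
        rw [hL]
        split_ifs <;> simp
      simp only [h1]
      rw [← Finset.sum_filter]
      refine Finset.sum_congr ?_ fun _ _ => rfl
      ext v
      rw [mem_filter, mem_range, mem_Ico]
      omega
    have e3 : ∑ v ∈ range N, F v * μ v = ∑ e ∈ U \ Z, (h e : ℝ) * m e +
        ∑ z ∈ Z, (((h z : ℝ) - 1) * m z + ∑ x ∈ X z, m x - W z) := by
      simp only [hF, add_mul, Finset.sum_mul]
      rw [Finset.sum_add_distrib, Finset.sum_comm, Finset.sum_comm (s := range N) (t := Z)]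
      congr 1
      · refine Finset.sum_congr rfl fun e _ => ?_
        rw [← e1 e, Finset.mul_sum]
        refine Finset.sum_congr rfl fun v _ => ?_
        ring
      · refine Finset.sum_congr rfl fun z hz => ?_
        have g1 : ∀ v, P z v * μ v = ((h z : ℝ) - 1) * (I z v * μ v) + ∑ x ∈ X z, I x v * μ v -
            L z v * μ v := by
          intro v
          rw [hP, ← Finset.sum_mul]
          ring
        simp only [g1]
        rw [Finset.sum_sub_distrib, Finset.sum_add_distrib, e2 z hz, ← Finset.mul_sum, e1,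
          Finset.sum_comm]
        simp only [e1]
    have hmW : ∀ z ∈ Z, ∀ x, x < N → z ≤ x + k → x ≤ z → c * m x ≤ W z := by
      intro z hz x hx h1 h2
      rw [hm, hW]
      exact hw z x (hZk z hz) (hUN z (hZ1 hz)) hx h1 (by omega)
    have hfun : ∀ z ∈ Z, ((∑ e ∈ (U \ Z).filter (fun e => ζ e = z), h e) + h z + (X z).card : ℕ) ≤ t := by
      intro z hz
      have h4 := (hUm z).1 (hZ1 hz)
      have h5 := hX1 z h4
      have h6 := hX2 z h4
      have h7 := hX3 z h4
      have h8 : ∑ e ∈ (U \ Z).filter (fun e => ζ e = z), h e ≤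
          ∑ e ∈ range z, (if 1 ≤ nn e (X z) then h e else 0) := by
        calc ∑ e ∈ (U \ Z).filter (fun e => ζ e = z), h e
            = ∑ e ∈ (U \ Z).filter (fun e => ζ e = z), (if 1 ≤ nn e (X z) then h e else 0) := by
              refine Finset.sum_congr rfl fun e he => ?_
              rw [if_pos]
              rw [mem_filter, mem_sdiff] at he
              have h9 := hζ2 e he.1.1
              have h10 := hζ3 e he.1.1
              rw [he.2] at h9 h10
              obtain ⟨x, hx, hex⟩ := hitw hq1 hq2 hf (hCT _ h5) ((hCm _).1 h5).2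
                (hUN e he.1.1) (hUf e he.1.1) (by rw [h6]; exact h10) (by rw [h6]; exact h9)
              rw [hnn]
              rw [mem_LQ] at hex
              exact card_pos.2 ⟨x, mem_filter.2 ⟨hx, mem_LQ.2 ⟨mem_range.1 ((hCT _ h5).cq.2.1 hx),
                hex.2.2.1, hex.2.1, hq2 _ _ hex.2.2.2⟩⟩⟩
          _ ≤ _ := by
              refine Finset.sum_le_sum_of_subset ?_
              intro e he
              rw [mem_filter, mem_sdiff] at he
              have h9 := hζ2 e he.1.1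
              rw [he.2] at h9
              rw [mem_range]
              rcases h9.eq_or_lt with h11 | h11
              · exact absurd (h11 ▸ hz) he.1.2
              · exact h11
      omega
    have e4 : c * ∑ v ∈ range N, F v * μ v ≤ 0 := by
      rw [e3, mul_add, Finset.mul_sum, Finset.mul_sum]
      have h1 : ∑ e ∈ U \ Z, c * ((h e : ℝ) * m e) ≤ ∑ z ∈ Z,
          ((∑ e ∈ (U \ Z).filter (fun e => ζ e = z), h e : ℕ) : ℝ) * W z := by
        rw [← Finset.sum_fiberwise_of_maps_to (s := U \ Z) (t := Z) (g := ζ)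
          (fun e he => hζ1 e (mem_sdiff.1 he).1)]
        refine Finset.sum_le_sum fun z hz => ?_
        push_cast
        rw [Finset.sum_mul]
        refine Finset.sum_le_sum fun e he => ?_
        rw [mem_filter, mem_sdiff] at he
        have h9 := hζ2 e he.1.1
        have h10 := hζ3 e he.1.1
        rw [he.2] at h9 h10
        have h2 := hmW z hz e (hUN e he.1.1) h10 h9
        have h3 : (0 : ℝ) ≤ h e := Nat.cast_nonneg _
        nlinarith [mul_le_mul_of_nonneg_left h2 h3]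
      have h2 : ∑ z ∈ Z, c * (((h z : ℝ) - 1) * m z + ∑ x ∈ X z, m x - W z) ≤
          ∑ z ∈ Z, (((h z : ℝ) - 1) + (X z).card - c) * W z := by
        refine Finset.sum_le_sum fun z hz => ?_
        have h4 := (hUm z).1 (hZ1 hz)
        have h5 := hX1 z h4
        have h6 := hX2 z h4
        have h3 := hmW z hz z (hUN z (hZ1 hz)) (by omega) le_rfl
        have h7 : c * ∑ x ∈ X z, m x ≤ (X z).card * W z := by
          rw [Finset.mul_sum, ← nsmul_eq_mul, ← Finset.sum_const]
          refine Finset.sum_le_sum fun x hx => ?_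
          have h8 := le_last hx
          have h9 := last_le (hCT _ h5).cq hx
          rw [h6] at h8 h9
          exact hmW z hz x (mem_range.1 ((hCT _ h5).cq.2.1 hx)) h9 h8
        have h8 := mul_le_mul_of_nonneg_left h3 (hhz z hz)
        nlinarith
      have h3 : ∑ z ∈ Z, ((∑ e ∈ (U \ Z).filter (fun e => ζ e = z), h e : ℕ) : ℝ) * W z +
          ∑ z ∈ Z, (((h z : ℝ) - 1) + (X z).card - c) * W z ≤ 0 := by
        rw [← Finset.sum_add_distrib]
        refine Finset.sum_nonpos fun z hz => ?_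
        have h4 : (((∑ e ∈ (U \ Z).filter (fun e => ζ e = z), h e) + h z + (X z).card : ℕ) : ℝ) ≤ t := by
          exact_mod_cast hfun z hz
        rw [Nat.cast_add, Nat.cast_add] at h4
        have h5 : ((∑ e ∈ (U \ Z).filter (fun e => ζ e = z), h e : ℕ) : ℝ) +
            (((h z : ℝ) - 1) + (X z).card - c) ≤ 0 := by linarith
        rw [← add_mul]
        exact mul_nonpos_of_nonpos_of_nonneg h5 (hW0 z)
      linarith
    by_contra hcon
    push Not at hcon
    have := mul_pos hc0 hcon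
    linarith
  -- conclusion
  have htp : (0 : ℝ) < t := by linarith
  have d1 : ∑ Y ∈ (range N).powerset, w Y * ((t : ℝ) - (Y.filter (fun v => 0 < f v)).card) ≤
      ∑ Y ∈ (range N).powerset, w Y * ∑ v ∈ Y.filter (fun v => 0 < f v), F v := by
    refine Finset.sum_le_sum fun Y _ => ?_
    by_cases h0 : w Y = 0
    · rw [h0]
      simp
    · refine mul_le_mul_of_nonneg_left ?_ (hw0 Y)
      obtain ⟨g1, g2, g3⟩ := hwt Y h0
      have hT := trace hf g1 g2 g3
      rcases hT.card.lt_or_eq with h1 | h1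
      · exact c3 _ ((hCm _).2 ⟨hT, h1⟩)
      · rw [h1, sub_self]
        exact Finset.sum_nonneg fun v hv => c1 v (mem_range.1 (hT.cq.2.1 hv)) (hT.pos v hv)
  have d2 : ∑ Y ∈ (range N).powerset, w Y * ∑ v ∈ Y.filter (fun v => 0 < f v), F v =
      ∑ v ∈ (range N).filter (fun v => 0 < f v), F v * load N w v := by
    unfold load
    simp only [Finset.mul_sum]
    rw [Finset.sum_comm]
    refine Finset.sum_congr rfl fun Y hY => ?_
    have h2 : ∀ v, F v * (if v ∈ Y then w Y else 0) = if v ∈ Y then w Y * F v else 0 := by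
      intro v
      split_ifs
      · ring
      · ring
    simp only [h2]
    rw [← Finset.sum_filter]
    refine Finset.sum_congr ?_ fun _ _ => rfl
    ext v
    rw [mem_filter, mem_filter, mem_filter]
    exact ⟨fun h => ⟨⟨mem_powerset.1 hY h.1, h.2⟩, h.1⟩, fun h => ⟨h.2, h.1.2⟩⟩
  have d3 : ∑ v ∈ (range N).filter (fun v => 0 < f v), F v * load N w v ≤
      ∑ v ∈ range N, F v * μ v + ∑ v ∈ (range N).filter (fun v => f v = 0), μ v := by
    rw [Finset.sum_filter, Finset.sum_filter, ← Finset.sum_add_distrib]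
    refine Finset.sum_le_sum fun v hv => ?_
    rw [mem_range] at hv
    by_cases h0 : f v = 0
    · rw [if_neg (by rw [h0]; exact lt_irrefl _), if_pos h0]
      have h2 := c2 v
      have h3 := hμ v
      nlinarith
    · have h1 : 0 < f v := lt_of_le_of_ne (hf.nonneg v) (Ne.symm h0)
      rw [if_pos h1, if_neg h0, add_zero]
      have h2 := heq v hv h1
      have h3 := hlam0 v
      exact mul_le_mul_of_nonneg_left (by linarith) (c1 v hv h1)
  rw [d2] at d1
  linarith

end Pool.Agent.Helper49K9.PS2
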