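import Pool.Agent.Helper49K9.PS2.Cert
import Pool.Agent.Helper87K9.PS2.Lpc
import Pool.Agent.Helper64K9.PS2.End
import Pool.Agent.Helper64K9.PS2.Mainf

/-!
Clique factors in dense subgraphs of powers of cycles: `A t` for all `t ≥ 3`.
-/

set_option autoImplicit false

namespace Pool.Agent.Helper49K9.PS2

open Finset Pool.Agent.Helper83K9.CF Pool.Agent.Helper74K9.PS

/-- the fractional theorem on the line for all `t` -/
theorem frac (t : ℕ) : Fix.T_FRAC t := by
  classical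
  refine Pool.Agent.Helper64K9.PS2.frac_of t fun k N q μ ht hk hq1 hq2 hμ hw => ?_
  have htr : (0 : ℝ) < t := by
    have : 0 < t := by omega
    exact_mod_cast this
  have hψ : (0 : ℝ) < 1 / t := by positivity
  obtain ⟨f, w, lam, h1, h2, h3, h4, h5, h6, h7, h8⟩ :=
    Pool.Agent.Helper87K9.PS2.lpc t k N q μ (fun Y => (3 : ℝ) ^ (Y.sup id)) (1 / t) (by omega)
      hψ.le (fun Y => by positivity)
  have hF : Feas q k N t f := ⟨h1.nonneg, h1.first, h1.le⟩
  refine ⟨f, lam, w, h1.nonneg, h3, fun Y hY => ⟨(h4 Y hY).1, (h4 Y hY).2.1⟩, h5,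
    fun v hv => ⟨(h6 v hv).2.1, by rw [(h6 v hv).2.2]; exact hψ⟩, h7, h8, ?_⟩
  have h9 := cert t k N q μ f lam w ht hk hq1 hq2 hμ hw hF h3 h4 h5 h8
  convert h9

/-- the sets `A t` -/
theorem final (t : ℕ) (ht : 3 ≤ t) : A t = Set.Ioi (1 - 1 / (2 * ((t : ℝ) - 1))) :=
  Pool.Agent.Helper64K9.PS2.mainF t ht (frac t)


end Pool.Agent.Helper49K9.PS2
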