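import Pool.Agent.Helper74K9.PS.Cert2

/-!
Clique factors in dense subgraphs of powers of cycles: helper40's certificate with the cost
`3 ^ (last Y)`: exchange and payment.
-/

set_option autoImplicit false

namespace Pool.Agent.Helper49K9.PS2

open Finset Pool.Agent.Helper83K9.CF Pool.Agent.Helper74K9.PS
open Pool.Agent.Helper74K9.PS.CertL (mem_LQ last_mem le_last last_le nq conf conf_eq wind unit
  unit_ge unit_pos)

/-- the feasible functions: at most `3 ^ (last Y)` on the cliques with at most `t` vertices, at most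
`1 / t` on the first window -/
structure Feas (q : ℕ → ℕ → Prop) (k N t : ℕ) (f : ℕ → ℝ) : Prop where
  nonneg : ∀ v, 0 ≤ f v
  first : ∀ v, v < k → f v ≤ 1 / t
  le : ∀ Y, Cq q k N Y → Y.card ≤ t → ∑ x ∈ Y, f x ≤ 3 ^ (Y.sup id)

/-- the tight cliques inside `{f > 0}` -/
structure Tgt (q : ℕ → ℕ → Prop) (k N t : ℕ) (f : ℕ → ℝ) (Y : Finset ℕ) : Prop where
  cq : Cq q k N Y
  card : Y.card ≤ t
  pos : ∀ v ∈ Y, 0 < f v
  eq : ∑ x ∈ Y, f x = 3 ^ (Y.sup id)

/-- key principle: a vertex of `{f > 0}` in a common window with a core, not to the right of it,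
conflicts with it -/
theorem kp {t k N : ℕ} {q : ℕ → ℕ → Prop} {f : ℕ → ℝ} (hq1 : ∀ x, q x x)
    (hq2 : ∀ x y, q x y → q y x) (hf : Feas q k N t f) {Y : Finset ℕ} (hY : Tgt q k N t f Y)
    (hc : Y.card < t) {v : ℕ} (hv : v < N) (hfv : 0 < f v) (hvl : v ≤ Y.sup id)
    (hn : ∀ y ∈ Y, v ≤ y + k ∧ y ≤ v + k) : ∃ y ∈ Y, v ∈ LQ q k N y := by
  by_contra hcon
  push Not at hcon
  have hq : ∀ y ∈ Y, ¬ q y v := by
    intro y hy h
    exact hcon y hy (mem_LQ.2 ⟨hv, (hn y hy).1, (hn y hy).2, h⟩)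
  have hvY : v ∉ Y := fun h => hq v h (hq1 v)
  have h1 := hf.le (insert v Y) ⟨⟨v, mem_insert_self _ _⟩, by
      intro x hx
      rcases mem_insert.1 hx with rfl | hx
      · exact mem_range.2 hv
      · exact hY.cq.2.1 hx, by
      intro x hx y hy hxy
      rcases mem_insert.1 hx with h1 | h1 <;> rcases mem_insert.1 hy with h2 | h2
      · omega
      · rw [h1]
        exact ⟨(hn y h2).2, fun h => hq y h2 (hq2 _ _ h)⟩
      · rw [h2]
        exact ⟨(hn x h1).1, hq x h1⟩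
      · exact hY.cq.2.2 x h1 y h2 hxy⟩ (by rw [card_insert_of_notMem hvY]; omega)
  have h2 : (insert v Y).sup id = Y.sup id := by
    rw [Finset.sup_insert]
    exact sup_eq_right.2 hvl
  rw [h2, sum_insert hvY, hY.eq] at h1
  linarith

/-- cores end outside of the first window -/
theorem klast {t k N : ℕ} {q : ℕ → ℕ → Prop} {f : ℕ → ℝ} (hf : Feas q k N t f) {Y : Finset ℕ}
    (hY : Tgt q k N t f Y) (hc : Y.card < t) : k ≤ Y.sup id := by
  by_contra hcon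
  have htr : (0 : ℝ) < t := by
    have : 0 < t := by omega
    exact_mod_cast this
  have h1 : ∑ x ∈ Y, f x ≤ ∑ x ∈ Y, (1 / t : ℝ) :=
    sum_le_sum fun x hx => hf.first x (by have := le_last hx; omega)
  rw [hY.eq, sum_const, nsmul_eq_mul] at h1
  have h2 : (1 : ℝ) ≤ 3 ^ (Y.sup id) := one_le_pow₀ (by norm_num)
  have h3 : (Y.card : ℝ) < t := by exact_mod_cast hc
  have h4 : (Y.card : ℝ) * (1 / t) < 1 := by
    rw [mul_one_div, div_lt_one htr]
    exact h3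
  linarith

/-- cliques with at most `2 t` vertices to the left of `z` -/
theorem small {t k N : ℕ} {q : ℕ → ℕ → Prop} {f : ℕ → ℝ} (hf : Feas q k N t f) {W : Finset ℕ}
    (hW : ∀ x ∈ W, ∀ y ∈ W, x < y → y ≤ x + k ∧ ¬ q x y) (hN : W ⊆ range N) {z : ℕ} (hz : 1 ≤ z)
    (hl : ∀ x ∈ W, x < z) (hc : W.card ≤ t) : ∑ x ∈ W, f x ≤ 3 ^ (z - 1) := by
  rcases W.eq_empty_or_nonempty with rfl | hne
  · simp only [sum_empty]
    positivity
  · have hcq : Cq q k N W := ⟨hne, hN, hW⟩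
    refine (hf.le W hcq hc).trans (pow_le_pow_right₀ (by norm_num) ?_)
    have := hl _ (last_mem hcq)
    omega

theorem two {t k N : ℕ} {q : ℕ → ℕ → Prop} {f : ℕ → ℝ} (hf : Feas q k N t f) {W : Finset ℕ}
    (hW : ∀ x ∈ W, ∀ y ∈ W, x < y → y ≤ x + k ∧ ¬ q x y) (hN : W ⊆ range N) {z : ℕ} (hz : 1 ≤ z)
    (hl : ∀ x ∈ W, x < z) (hc : W.card ≤ 2 * t) : ∑ x ∈ W, f x ≤ 2 * 3 ^ (z - 1) := by
  rcases le_or_gt W.card t with h | h
  · have h1 := small hf hW hN hz hl h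
    have h2 : (0 : ℝ) ≤ 3 ^ (z - 1) := by positivity
    linarith
  · obtain ⟨A, hA1, hA2⟩ := Finset.exists_subset_card_eq h.le
    have h1 := small hf (W := A) (fun x hx y hy => hW x (hA1 hx) y (hA1 hy)) (hA1.trans hN) hz
      (fun x hx => hl x (hA1 hx)) hA2.le
    have h2 := small hf (W := W \ A) (fun x hx y hy => hW x (mem_sdiff.1 hx).1 y (mem_sdiff.1 hy).1)
      (sdiff_subset.trans hN) hz (fun x hx => hl x (mem_sdiff.1 hx).1)
      (by rw [card_sdiff_of_subset hA1]; omega)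
    have h3 := Finset.sum_sdiff (f := f) hA1
    linarith

open Classical in
/-- the exchange of the last vertex `z` of `X` and its missing neighbours in `Y` -/
theorem exch {t k N : ℕ} {q : ℕ → ℕ → Prop} {f : ℕ → ℝ} (hq1 : ∀ x, q x x)
    (hq2 : ∀ x y, q x y → q y x) (hf : Feas q k N t f)
    {X Y : Finset ℕ} (hX : Tgt q k N t f X) (hY : Tgt q k N t f Y)
    (hzl : X.sup id ≤ Y.sup id)
    (hd : ∀ v ∈ Y, (X.filter (fun x => v ∈ LQ q k N x)).card =
      if X.sup id - k ≤ v ∧ v < X.sup id then 1 else 0)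
    (hn : 1 ≤ (Y.filter (fun v => v ∈ LQ q k N (X.sup id))).card) : False := by
  obtain ⟨z, hz⟩ : ∃ z, z = X.sup id := ⟨_, rfl⟩
  obtain ⟨l, hl⟩ : ∃ l, l = Y.sup id := ⟨_, rfl⟩
  rw [← hz] at hd hn hzl
  rw [← hl] at hzl
  obtain ⟨S, hS⟩ : ∃ S, S = Y.filter (fun v => v ∈ LQ q k N z) := ⟨_, rfl⟩
  rw [← hS] at hn
  have hzX : z ∈ X := by rw [hz]; exact last_mem hX.cq
  have hlY : l ∈ Y := by rw [hl]; exact last_mem hY.cq
  have hmS : ∀ v, v ∈ S ↔ v ∈ Y ∧ v ∈ LQ q k N z := by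
    intro v
    rw [hS, mem_filter]
  have hSL : ∀ v ∈ S, z - k ≤ v ∧ v < z := by
    intro v hv
    have h1 := hd v ((hmS v).1 hv).1
    by_contra hcon
    rw [if_neg hcon, card_eq_zero] at h1
    have h2 : z ∈ X.filter (fun x => v ∈ LQ q k N x) := mem_filter.2 ⟨hzX, ((hmS v).1 hv).2⟩
    rw [h1] at h2
    simp at h2
  have hone : ∀ v ∈ S, ∀ x ∈ X, v ∈ LQ q k N x → x = z := by
    intro v hv x hx hvx
    have h1 := hd v ((hmS v).1 hv).1
    rw [if_pos (hSL v hv)] at h1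
    obtain ⟨a, ha⟩ := card_eq_one.1 h1
    have h2 : x ∈ X.filter (fun x => v ∈ LQ q k N x) := mem_filter.2 ⟨hx, hvx⟩
    have h3 : z ∈ X.filter (fun x => v ∈ LQ q k N x) := mem_filter.2 ⟨hzX, ((hmS v).1 hv).2⟩
    rw [ha, mem_singleton] at h2 h3
    rw [h2, h3]
  have hXle : ∀ x ∈ X, x ≤ z := fun x hx => by rw [hz]; exact le_last hx
  have hXk : ∀ x ∈ X, z ≤ x + k := fun x hx => by rw [hz]; exact last_le hX.cq hx
  have hYle : ∀ y ∈ Y, y ≤ l := fun x hx => by rw [hl]; exact le_last hx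
  have hYk : ∀ y ∈ Y, l ≤ y + k := fun x hx => by rw [hl]; exact last_le hY.cq hx
  obtain ⟨s, hs⟩ := card_pos.1 (by omega : 0 < S.card)
  have hlz : l ≤ z + k := by
    have h1 := hYk s ((hmS s).1 hs).1
    have h2 := (hSL s hs).2
    omega
  have hzY : z ∉ Y := by
    intro h
    have h1 : z ∈ S := (hmS z).2 ⟨h, mem_LQ.2 ⟨mem_range.1 (hX.cq.2.1 hzX), by omega, by omega,
      hq1 z⟩⟩
    exact lt_irrefl _ (hSL z h1).2
  have hSX : ∀ v ∈ S, v ∉ X := by
    intro v hv h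
    have h1 := hone v hv v h (mem_LQ.2 ⟨mem_range.1 (hX.cq.2.1 h), by omega, by omega, hq1 v⟩)
    have h2 := (hSL v hv).2
    omega
  have hzS : z ∉ S := fun h => lt_irrefl _ (hSL z h).2
  -- no conflicts
  have hq3 : ∀ v ∈ S, ∀ x ∈ X, x ≠ z → ¬ q x v := by
    intro v hv x hx hxz h
    refine hxz (hone v hv x hx (mem_LQ.2 ⟨mem_range.1 (hY.cq.2.1 ((hmS v).1 hv).1), ?_, ?_, h⟩))
    · have h1 := hXk x hx
      have h2 := (hSL v hv).2
      omega
    · have h1 := hXle x hx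
      have h2 := (hSL v hv).1
      omega
  have hq4 : ∀ y ∈ Y, y ∉ S → ¬ q z y := by
    intro y hy hyS h
    refine hyS ((hmS y).2 ⟨hy, mem_LQ.2 ⟨mem_range.1 (hY.cq.2.1 hy), ?_, ?_, h⟩⟩)
    · have h1 := hYle y hy
      omega
    · have h1 := hYk y hy
      omega
  obtain ⟨X', hX'⟩ : ∃ X', X' = X.erase z ∪ S := ⟨_, rfl⟩
  obtain ⟨Y', hY'⟩ : ∃ Y', Y' = insert z (Y \ S) := ⟨_, rfl⟩
  have hmX : ∀ v, v ∈ X' ↔ (v ≠ z ∧ v ∈ X) ∨ v ∈ S := by
    intro v
    rw [hX', mem_union, mem_erase]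
  have hmY : ∀ v, v ∈ Y' ↔ v = z ∨ (v ∈ Y ∧ v ∉ S) := by
    intro v
    rw [hY', mem_insert, mem_sdiff]
  have hXlt : ∀ v ∈ X', v < z := by
    intro v hv
    rcases (hmX v).1 hv with ⟨h1, h2⟩ | h
    · have := hXle v h2
      omega
    · exact (hSL v h).2
  have hXge : ∀ v ∈ X', z ≤ v + k := by
    intro v hv
    rcases (hmX v).1 hv with ⟨h1, h2⟩ | h
    · exact hXk v h2
    · have := (hSL v h).1
      omega
  have hXN : X' ⊆ range N := by
    intro v hv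
    rcases (hmX v).1 hv with ⟨h1, h2⟩ | h
    · exact hX.cq.2.1 h2
    · exact hY.cq.2.1 ((hmS v).1 h).1
  have hcX : ∀ x ∈ X', ∀ y ∈ X', x < y → y ≤ x + k ∧ ¬ q x y := by
    intro x hx y hy hxy
    refine ⟨?_, ?_⟩
    · have h1 := hXlt y hy
      have h2 := hXge x hx
      omega
    · rcases (hmX x).1 hx with ⟨h1, h2⟩ | h <;> rcases (hmX y).1 hy with ⟨h3, h4⟩ | h'
      · exact nq hq2 hX.cq h2 h4 (by omega)
      · exact hq3 y h' x h2 h1
      · exact fun hh => hq3 x h y h4 h3 (hq2 _ _ hh)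
      · exact nq hq2 hY.cq ((hmS x).1 h).1 ((hmS y).1 h').1 (by omega)
  have hcY : Cq q k N Y' := by
    refine ⟨⟨z, (hmY z).2 (Or.inl rfl)⟩, ?_, ?_⟩
    · intro v hv
      rcases (hmY v).1 hv with rfl | h
      · exact hX.cq.2.1 hzX
      · exact hY.cq.2.1 h.1
    · intro x hx y hy hxy
      rcases (hmY x).1 hx with rfl | ⟨h1, h2⟩ <;> rcases (hmY y).1 hy with rfl | ⟨h3, h4⟩
      · omega
      · have h5 := hYle y h3
        exact ⟨by omega, hq4 y h3 h4⟩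
      · have h5 := hYk x h1
        exact ⟨by omega, fun hh => hq4 x h1 h2 (hq2 _ _ hh)⟩
      · exact hY.cq.2.2 x h1 y h3 hxy
  have hdis : Disjoint (X.erase z) S := by
    rw [Finset.disjoint_left]
    intro v h1 h2
    exact hSX v h2 (mem_erase.1 h1).2
  have hcardX : X'.card = X.card - 1 + S.card := by
    rw [hX', card_union_of_disjoint hdis, card_erase_of_mem hzX]
  have hXpos : 1 ≤ X.card := card_pos.2 ⟨z, hzX⟩
  have hSY : S ⊆ Y := fun v hv => ((hmS v).1 hv).1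
  have hzYS : z ∉ Y \ S := fun h => hzY (mem_sdiff.1 h).1
  have hcardY : Y'.card = Y.card - S.card + 1 := by
    rw [hY', card_insert_of_notMem hzYS, card_sdiff_of_subset hSY]
  have hSle : S.card ≤ Y.card := card_le_card hSY
  have hsX : ∑ x ∈ X', f x = ∑ x ∈ X, f x - f z + ∑ x ∈ S, f x := by
    rw [hX', sum_union hdis, ← Finset.sum_erase_add X f hzX]
    ring
  have hsY : ∑ x ∈ Y', f x = ∑ x ∈ Y, f x + f z - ∑ x ∈ S, f x := by
    rw [hY', sum_insert hzYS, ← Finset.sum_sdiff hSY]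
    ring
  have hYt := hY.card
  have hXt := hX.card
  have hz1 : 1 ≤ z := by
    have := (hSL s hs).2
    omega
  have h1 := two hf hcX hXN hz1 hXlt (by rw [hcardX]; omega)
  have h2 := hf.le Y' hcY (by rw [hcardY]; omega)
  have h5 : Y'.sup id ≤ l := by
    have h6 := last_mem hcY
    rcases (hmY _).1 h6 with h | h
    · rw [h]
      exact hzl
    · exact hYle _ h.1
  have h3 : (3 : ℝ) ^ (Y'.sup id) ≤ 3 ^ l := pow_le_pow_right₀ (by norm_num) h5
  rw [hsX, hX.eq, ← hz] at h1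
  rw [hsY, hY.eq, ← hl] at h2
  have h6 : (3 : ℝ) ^ z = 3 * 3 ^ (z - 1) := by
    rw [← pow_succ']
    congr 1
    omega
  have h7 : (0 : ℝ) < 3 ^ (z - 1) := by positivity
  linarith

/-- every vertex of `{f > 0}` in the window of a core is hit -/
theorem hitw {t k N : ℕ} {q : ℕ → ℕ → Prop} {f : ℕ → ℝ} (hq1 : ∀ x, q x x)
    (hq2 : ∀ x y, q x y → q y x) (hf : Feas q k N t f) {X : Finset ℕ} (hX : Tgt q k N t f X)
    (hc : X.card < t) {v : ℕ} (hv : v < N) (hfv : 0 < f v) (h1 : X.sup id ≤ v + k)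
    (h2 : v ≤ X.sup id) : ∃ x ∈ X, v ∈ LQ q k N x := by
  refine kp hq1 hq2 hf hX hc hv hfv h2 fun y hy => ?_
  have h3 := le_last hy
  have h4 := last_le hX.cq hy
  exact ⟨by omega, by omega⟩

open Classical in
theorem conf_ge {t k N : ℕ} {q : ℕ → ℕ → Prop} {f : ℕ → ℝ} (hq1 : ∀ x, q x x)
    (hq2 : ∀ x y, q x y → q y x) (hf : Feas q k N t f) {X Y : Finset ℕ} (hX : Tgt q k N t f X)
    (hc : X.card < t) (hY : Tgt q k N t f Y) :
    ∀ v ∈ Y, (if X.sup id - k ≤ v ∧ v < X.sup id then 1 else 0) ≤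
      (X.filter (fun x => v ∈ LQ q k N x)).card := by
  intro v hv
  split_ifs with h
  · obtain ⟨x, hx, hvx⟩ := hitw hq1 hq2 hf hX hc (mem_range.1 (hY.cq.2.1 hv)) (hY.pos v hv)
      (by omega) (by omega)
    exact card_pos.2 ⟨x, mem_filter.2 ⟨hx, hvx⟩⟩
  · exact Nat.zero_le _

open Classical in
/-- the payment of the window of `X` to `Y` -/
theorem pay {t k N : ℕ} {q : ℕ → ℕ → Prop} {f : ℕ → ℝ} (hq1 : ∀ x, q x x)
    (hq2 : ∀ x y, q x y → q y x) (hf : Feas q k N t f)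
    {X Y : Finset ℕ} (hX : Tgt q k N t f X) (hY : Tgt q k N t f Y)
    (hXc : X.card < t) (hzl : X.sup id ≤ Y.sup id) {h : ℕ} (hh : 1 ≤ h)
    (hn : 1 ≤ (Y.filter (fun v => v ∈ LQ q k N (X.sup id))).card) :
    (h : ℝ) ≤ ((h : ℝ) - 1) * ((Y.filter (fun v => v ∈ LQ q k N (X.sup id))).card : ℝ) +
      ((conf q k N X Y : ℝ) -
        ((Y.filter (fun v => X.sup id - k ≤ v ∧ v < X.sup id)).card : ℝ)) := by
  obtain ⟨n, hnn⟩ : ∃ n, n = (Y.filter (fun v => v ∈ LQ q k N (X.sup id))).card := ⟨_, rfl⟩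
  have hge := conf_ge hq1 hq2 hf hX hXc hY
  have hE : (Y.filter (fun v => X.sup id - k ≤ v ∧ v < X.sup id)).card ≤ conf q k N X Y := by
    rw [conf_eq, Finset.card_filter]
    exact sum_le_sum hge
  rw [← hnn] at hn ⊢
  have hhr : (1 : ℝ) ≤ h := by exact_mod_cast hh
  have hnr : (1 : ℝ) ≤ n := by exact_mod_cast hn
  rcases hE.lt_or_eq with hE1 | hE1
  · have h1 : ((Y.filter (fun v => X.sup id - k ≤ v ∧ v < X.sup id)).card : ℝ) + 1 ≤
        conf q k N X Y := by exact_mod_cast hE1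
    nlinarith [mul_nonneg (by linarith : (0 : ℝ) ≤ (h : ℝ) - 1) (by linarith : (0 : ℝ) ≤ (n : ℝ) - 1)]
  · exfalso
    have hd : ∀ v ∈ Y, (X.filter (fun x => v ∈ LQ q k N x)).card =
        if X.sup id - k ≤ v ∧ v < X.sup id then 1 else 0 := by
      intro v hv
      rw [conf_eq, Finset.card_filter] at hE1
      have h3 := (Finset.sum_eq_sum_iff_of_le hge).1 hE1 v hv
      exact h3.symm
    exact exch hq1 hq2 hf hX hY hzl hd (by omega)

end Pool.Agent.Helper49K9.PS2
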